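import Pool.Agent.Y819.ZF.Stm2

/-!
# The forcing process of an explicit family of graphs

Job ZG-FAM of helper819.
-/

set_option autoImplicit false

namespace Pool.Agent.Y109.ZF

open Finset Pool.Agent.Y819.ZF Pool.Agent.H604R2.LEC

section

variable {k : ℕ} {A B : Finset (Fin k × Fin k)}

/-- adjacency of the vertices with the first index smaller -/
lemma adj_lt {i j : Fin k} (hij : i < j) (a b : Bool) : (famG k A B).Adj (i, a) (j, b) ↔
    ((a = false ∧ b = true) ∨ (a = false ∧ b = false ∧ (i, j) ∈ A) ∨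
      (a = true ∧ b = true ∧ (i, j) ∈ B) ∨
      (a = true ∧ b = false ∧ (i, j) ∉ A ∧ (i, j) ∉ B)) := by
  unfold famG
  rw [SimpleGraph.fromRel_adj]
  constructor
  · rintro ⟨-, h | h⟩
    · exact h.2
    · exact absurd h.1 (not_lt.2 hij.le)
  · intro h
    refine ⟨fun he => hij.ne (congrArg Prod.fst he), Or.inl ⟨hij, h⟩⟩

lemma not_adj_self (i : Fin k) (a b : Bool) : ¬ (famG k A B).Adj (i, a) (i, b) := by
  unfold famG
  rw [SimpleGraph.fromRel_adj]
  rintro ⟨-, h | h⟩
  · exact lt_irrefl _ h.1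
  · exact lt_irrefl _ h.1

lemma compl_lt {i j : Fin k} (hij : i < j) (a b : Bool) : (famG k A B)ᶜ.Adj (i, a) (j, b) ↔
    ¬ ((a = false ∧ b = true) ∨ (a = false ∧ b = false ∧ (i, j) ∈ A) ∨
      (a = true ∧ b = true ∧ (i, j) ∈ B) ∨
      (a = true ∧ b = false ∧ (i, j) ∉ A ∧ (i, j) ∉ B)) := by
  rw [SimpleGraph.compl_adj, adj_lt hij]
  constructor
  · exact fun h => h.2
  · exact fun h => ⟨fun he => hij.ne (congrArg Prod.fst he), h⟩

lemma compl_self (i : Fin k) (a b : Bool) : (famG k A B)ᶜ.Adj (i, a) (i, b) ↔ a ≠ b := by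
  rw [SimpleGraph.compl_adj]
  constructor
  · rintro ⟨h, -⟩ rfl
    exact h rfl
  · exact fun h => ⟨fun he => h (congrArg Prod.snd he), not_adj_self i a b⟩

/-! ### degrees -/

open Classical in
/-- the contribution of the index `j` to the degree of `(i, a)` in the complement -/
lemma cnt (hAB : Disjoint A B) (i j : Fin k) (a : Bool) :
    ((if (famG k A B)ᶜ.Adj (i, a) (j, true) then (1 : ℤ) else 0) +
      if (famG k A B)ᶜ.Adj (i, a) (j, false) then (1 : ℤ) else 0) =
    1 + (if a then -1 else 1) * ((if j < i ∧ (j, i) ∈ B then (1 : ℤ) else 0) -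
      if i < j ∧ (i, j) ∈ A then (1 : ℤ) else 0) := by
  have hd : ∀ x, x ∈ A → x ∈ B → False := fun x h1 h2 => Finset.disjoint_left.1 hAB h1 h2
  rcases lt_trichotomy i j with hij | hij | hij
  · have h1 : ¬ j < i := not_lt.2 hij.le
    rw [if_neg (fun h : j < i ∧ (j, i) ∈ B => h1 h.1)]
    simp only [compl_lt hij, hij, true_and]
    have hd' := hd (i, j)
    by_cases hA : (i, j) ∈ A <;> by_cases hB : (i, j) ∈ B <;> cases a <;> simp_all
  · subst hij
    simp only [compl_self, lt_irrefl, false_and, if_false]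
    cases a <;> simp
  · have h1 : ¬ i < j := not_lt.2 hij.le
    rw [if_neg (fun h : i < j ∧ (i, j) ∈ A => h1 h.1)]
    simp only [SimpleGraph.adj_comm _ (i, a), compl_lt hij, hij, true_and]
    have hd' := hd (j, i)
    by_cases hA : (j, i) ∈ A <;> by_cases hB : (j, i) ∈ B <;> cases a <;> simp_all

open Classical in
lemma cardA (i : Fin k) : ((A.filter fun x => x.1 = i ∧ x.1 < x.2).card : ℤ) =
    ∑ j : Fin k, if i < j ∧ (i, j) ∈ A then (1 : ℤ) else 0 := by
  have h1 : (A.filter fun x => x.1 = i ∧ x.1 < x.2) =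
      (univ.filter fun j : Fin k => i < j ∧ (i, j) ∈ A).image fun j => (i, j) := by
    ext x
    simp only [mem_filter, mem_image, mem_univ, true_and]
    constructor
    · rintro ⟨hx, rfl, hlt⟩
      exact ⟨x.2, ⟨hlt, hx⟩, rfl⟩
    · rintro ⟨j, ⟨h1, h2⟩, rfl⟩
      exact ⟨h2, rfl, h1⟩
  rw [h1, card_image_of_injective _ (fun a b h => congrArg Prod.snd h), card_filter]
  push_cast
  rfl

open Classical in
lemma cardB (i : Fin k) : ((B.filter fun x => x.2 = i ∧ x.1 < x.2).card : ℤ) =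
    ∑ j : Fin k, if j < i ∧ (j, i) ∈ B then (1 : ℤ) else 0 := by
  have h1 : (B.filter fun x => x.2 = i ∧ x.1 < x.2) =
      (univ.filter fun j : Fin k => j < i ∧ (j, i) ∈ B).image fun j => (j, i) := by
    ext x
    simp only [mem_filter, mem_image, mem_univ, true_and]
    constructor
    · rintro ⟨hx, rfl, hlt⟩
      exact ⟨x.1, ⟨hlt, hx⟩, rfl⟩
    · rintro ⟨j, ⟨h1, h2⟩, rfl⟩
      exact ⟨h2, rfl, h1⟩
  rw [h1, card_image_of_injective _ (fun a b h => congrArg Prod.fst h), card_filter]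
  push_cast
  rfl

theorem degrees (hAB : Disjoint A B)
    (h : ∀ i, (A.filter fun x => x.1 = i ∧ x.1 < x.2).card =
      (B.filter fun x => x.2 = i ∧ x.1 < x.2).card) (v : Fin k × Bool) :
    (((famG k A B)ᶜ).neighborSet v).ncard = k := by
  classical
  obtain ⟨i, a⟩ := v
  have h1 : ((famG k A B)ᶜ).neighborSet (i, a) =
      ((univ.filter fun w => (famG k A B)ᶜ.Adj (i, a) w : Finset (Fin k × Bool)) :
        Set (Fin k × Bool)) := by
    ext w
    simp
  rw [h1, Set.ncard_coe_finset]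
  have h2 : ((univ.filter fun w => (famG k A B)ᶜ.Adj (i, a) w : Finset (Fin k × Bool)).card : ℤ) =
      k := by
    rw [card_filter]
    push_cast
    rw [Fintype.sum_prod_type]
    simp only [Fintype.sum_bool]
    rw [Finset.sum_congr rfl fun j _ => cnt hAB i j a, Finset.sum_add_distrib,
      ← Finset.mul_sum, Finset.sum_sub_distrib, ← cardA, ← cardB, h i, sub_self, mul_zero, add_zero]
    simp
  exact_mod_cast h2

/-! ### the forcing process -/

/-- the ends of the chains -/
def hT (t : ℕ) (i : Fin k) : Fin k × Bool := (i, decide (i.1 < t))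

/-- the vertices which are not yet forced -/
def ZT (k t : ℕ) : Finset (Fin k × Bool) := univ.filter fun v => v.2 = true ∧ t ≤ v.1.1

open Classical in
/-- the multiplicities -/
noncomputable def MT (A B : Finset (Fin k × Fin k)) (t : ℕ) (e : Ed k) : ℕ :=
  (if t ≤ e.1.1.1 ∧ e.1 ∈ A then 1 else 0) + (if t ≤ e.1.2.1 ∧ e.1 ∉ A ∧ e.1 ∉ B then 1 else 0) +
    if e.1 ∈ B then 1 else 0

lemma erase_eq {t : ℕ} (ht : t < k) : (ZT k t).erase (⟨t, ht⟩, true) = ZT k (t + 1) := by
  ext ⟨i, a⟩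
  simp only [ZT, mem_erase, mem_filter, mem_univ, true_and, ne_eq, Prod.mk.injEq, not_and]
  constructor
  · rintro ⟨h1, rfl, h2⟩
    refine ⟨rfl, ?_⟩
    rcases Nat.eq_or_lt_of_le h2 with h3 | h3
    · exact absurd rfl (h1 (Fin.ext h3.symm))
    · exact h3
  · rintro ⟨rfl, h2⟩
    refine ⟨fun h3 => ?_, rfl, by omega⟩
    have := congrArg Fin.val h3
    simp only at this
    omega

lemma update_eq {t : ℕ} (ht : t < k) :
    Function.update (hT (k := k) t) ⟨t, ht⟩ (⟨t, ht⟩, true) = hT (t + 1) := by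
  funext i
  by_cases hi : i = ⟨t, ht⟩
  · subst hi
    simp [hT]
  · rw [Function.update_of_ne hi]
    have h1 : i.1 ≠ t := fun h => hi (Fin.ext h)
    simp only [hT, Prod.mk.injEq, true_and, decide_eq_decide]
    omega

open Classical in
lemma MT_step (hAB : Disjoint A B) {t : ℕ} (ht : t < k) (e : Ed k) : MT A B t e = MT A B (t + 1) e +
    if (e.1.1 = ⟨t, ht⟩ ∨ e.1.2 = ⟨t, ht⟩) ∧
      ¬ (famG k A B)ᶜ.Adj (hT t e.1.1) (hT t e.1.2) then 1 else 0 := by
  obtain ⟨⟨i, j⟩, hij⟩ := e
  have hij' : i < j := hij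
  have hlt : i.1 < j.1 := hij'
  have hd : (i, j) ∈ A → (i, j) ∈ B → False := fun h1 h2 => Finset.disjoint_left.1 hAB h1 h2
  simp only [MT, hT, compl_lt hij', Fin.ext_iff, not_not]
  rcases lt_trichotomy i.1 t with h1 | h1 | h1
  · rcases lt_trichotomy j.1 t with h2 | h2 | h2
    · have e1 : ¬ t ≤ i.1 := by omega
      have e2 : ¬ t ≤ j.1 := by omega
      have e3 : ¬ t + 1 ≤ i.1 := by omega
      have e4 : ¬ t + 1 ≤ j.1 := by omega
      have e5 : i.1 ≠ t := by omega
      have e6 : j.1 ≠ t := by omega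
      simp [e1, e2, e3, e4, e5, e6]
    · have e1 : ¬ t ≤ i.1 := by omega
      have e2 : t ≤ j.1 := by omega
      have e3 : ¬ t + 1 ≤ i.1 := by omega
      have e4 : ¬ t + 1 ≤ j.1 := by omega
      have e5 : i.1 ≠ t := by omega
      have e7 : ¬ j.1 < t := by omega
      by_cases hA : (i, j) ∈ A <;> by_cases hB : (i, j) ∈ B <;>
        simp [e1, e2, e3, e4, e5, h2, e7, h1, hA, hB]
    · have e1 : ¬ t ≤ i.1 := by omega
      have e2 : t ≤ j.1 := by omega
      have e3 : ¬ t + 1 ≤ i.1 := by omega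
      have e4 : t + 1 ≤ j.1 := by omega
      have e5 : i.1 ≠ t := by omega
      have e6 : j.1 ≠ t := by omega
      simp [e1, e2, e3, e4, e5, e6]
  · have e1 : t ≤ i.1 := by omega
    have e2 : t ≤ j.1 := by omega
    have e3 : ¬ t + 1 ≤ i.1 := by omega
    have e4 : t + 1 ≤ j.1 := by omega
    have e5 : ¬ i.1 < t := by omega
    have e6 : j.1 ≠ t := by omega
    have e7 : ¬ j.1 < t := by omega
    by_cases hA : (i, j) ∈ A <;> by_cases hB : (i, j) ∈ B <;>
      simp_all
  · have e1 : t ≤ i.1 := by omega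
    have e2 : t ≤ j.1 := by omega
    have e3 : t + 1 ≤ i.1 := by omega
    have e4 : t + 1 ≤ j.1 := by omega
    have e5 : i.1 ≠ t := by omega
    have e6 : j.1 ≠ t := by omega
    simp [e1, e2, e3, e4, e5, e6]

theorem forcing (hAB : Disjoint A B) : ∀ n, n ≤ k →
    Forces (famG k A B)ᶜ (ZT k (k - n)) (hT (k - n)) (MT A B (k - n)) := by
  classical
  intro n
  induction n with
  | zero =>
    intro _
    rw [Nat.sub_zero]
    have h1 : ZT k k = ∅ := by
      ext ⟨i, a⟩
      simp only [ZT, mem_filter, mem_univ, true_and, Finset.notMem_empty, iff_false, not_and]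
      intro _
      have := i.2
      omega
    have h2 : MT A B k = fun e : Ed k =>
        if (famG k A B)ᶜ.Adj (hT k e.1.1) (hT k e.1.2) then 0 else 1 := by
      funext e
      obtain ⟨⟨i, j⟩, hij⟩ := e
      have hij' : i < j := hij
      have hi := i.2
      have hj := j.2
      have e1 : ¬ k ≤ i.1 := by omega
      have e2 : ¬ k ≤ j.1 := by omega
      simp only [MT, hT, compl_lt hij']
      by_cases hB : (i, j) ∈ B <;> simp [e1, e2, hi, hj, hB]
    rw [h1, h2]
    convert Forces.done (F := (famG k A B)ᶜ) (hT (k := k) k)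
  | succ n ih =>
    intro hn
    obtain ⟨t, ht⟩ : ∃ t, t = k - (n + 1) := ⟨_, rfl⟩
    have htk : t < k := by omega
    have ht1 : k - n = t + 1 := by omega
    have h1 := ih (by omega)
    rw [ht1] at h1
    rw [← ht]
    rw [← erase_eq htk, ← update_eq htk] at h1
    have h2 := Forces.step (F := (famG k A B)ᶜ) (ZT k t) (hT t) ⟨t, htk⟩ (⟨t, htk⟩, true)
      (MT A B (t + 1)) ?_ ?_ ?_ h1
    · have h3 : MT A B t = fun e : Ed k => MT A B (t + 1) e +
          if (e.1.1 = ⟨t, htk⟩ ∨ e.1.2 = ⟨t, htk⟩) ∧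
            ¬ (famG k A B)ᶜ.Adj (hT t e.1.1) (hT t e.1.2) then 1 else 0 :=
        funext fun e => MT_step hAB htk e
      rw [h3]
      convert h2
    · simp [ZT]
    · have h5 : hT (k := k) t ⟨t, htk⟩ = (⟨t, htk⟩, false) := by simp [hT]
      rw [h5]
      simp [compl_self, not_adj_self]
    · rintro ⟨j, b⟩ hz hadj
      simp only [ZT, mem_filter, mem_univ, true_and] at hz
      obtain ⟨rfl, hz⟩ := hz
      rcases Nat.eq_or_lt_of_le hz with h3 | h3
      · exact Prod.ext (Fin.ext h3.symm) rfl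
      · exfalso
        have h4 : (⟨t, htk⟩ : Fin k) < j := h3
        have h5 : hT (k := k) t ⟨t, htk⟩ = (⟨t, htk⟩, false) := by simp [hT]
        rw [h5, compl_lt h4] at hadj
        exact hadj (Or.inl ⟨rfl, rfl⟩)

end

theorem main : S_FAM := by
  intro k A B hAB h
  refine ⟨degrees hAB h, ?_⟩
  classical
  have h1 := forcing hAB k le_rfl
  rw [Nat.sub_self] at h1
  have h2 : ZT k 0 = univ.filter fun v : Fin k × Bool => v.2 = true := by
    ext v
    simp [ZT]
  have h3 : hT (k := k) 0 = fun i => (i, false) := by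
    funext i
    simp [hT]
  have h4 : MT A B 0 = fun _ : Ed k => 1 := by
    funext e
    have hd : e.1 ∈ A → e.1 ∈ B → False := fun h1 h2 => Finset.disjoint_left.1 hAB h1 h2
    by_cases hA : e.1 ∈ A <;> by_cases hB : e.1 ∈ B
    · exact (hd hA hB).elim
    all_goals simp [MT, hA, hB]
  rw [h2, h3, h4] at h1
  convert h1

end Pool.Agent.Y109.ZF
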